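import Pool.Agent.helper78.ED.Defs
import Pool.Agent.helper59.DM.DV

/-!
# Project ED (MP_4467b5_nt), module PW: powers of Dirichlet polynomials
-/

set_option autoImplicit false

open Complex MeasureTheory

namespace Pool.Agent.helper78.ED

open Pool.Agent.helper84.DM

theorem PW_d_pos {n : ℕ} (hn : n ≠ 0) : (1 : ℝ) ≤ d n := by
  unfold d
  have : 0 < n.divisors.card := Finset.card_pos.2 ⟨1, by simp [hn]⟩
  exact_mod_cast this

theorem PW_d_nonneg (n : ℕ) : 0 ≤ d n := by
  unfold d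
  exact Nat.cast_nonneg _

theorem PW_d_dvd {m n : ℕ} (h : m ∣ n) (hn : n ≠ 0) : d m ≤ d n := by
  unfold d
  exact_mod_cast Finset.card_le_card (Nat.divisors_subset_of_dvd hn h)

/-- the product of two Dirichlet polynomials -/
theorem PW_mul (I J K : Finset ℕ) (c b : ℕ → ℂ) (hK : ∀ p ∈ I ×ˢ J, p.1 * p.2 ∈ K) (s : ℂ) :
    (∑ n ∈ I, c n * (n : ℂ) ^ (-s)) * (∑ n ∈ J, b n * (n : ℂ) ^ (-s))
      = ∑ m ∈ K, (∑ p ∈ (I ×ˢ J).filter (fun p => p.1 * p.2 = m), c p.1 * b p.2)
        * (m : ℂ) ^ (-s) := by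
  rw [Finset.sum_mul_sum, ← Finset.sum_product',
    ← Finset.sum_fiberwise_of_maps_to hK]
  refine Finset.sum_congr rfl (fun m _ => ?_)
  rw [Finset.sum_mul]
  refine Finset.sum_congr rfl (fun p hp => ?_)
  have h1 := (Finset.mem_filter.1 hp).2
  rw [← h1, Nat.cast_mul, natCast_mul_natCast_cpow]
  ring

theorem pow_poly (N : ℕ) (hN : 1 ≤ N) (c : ℕ → ℂ) (B : ℝ) (hB : 0 ≤ B)
    (hc : ∀ n ∈ Finset.Ioc N (2 * N), ‖c n‖ ≤ B) (k : ℕ) (hk : 1 ≤ k) :
    ∃ b : ℕ → ℂ, (∀ n, ‖b n‖ ≤ B ^ k * d n ^ k) ∧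
      ∀ s : ℂ, (∑ n ∈ Finset.Ioc N (2 * N), c n * (n : ℂ) ^ (-s)) ^ k
        = ∑ n ∈ Finset.Ioc (N ^ k) ((2 * N) ^ k), b n * (n : ℂ) ^ (-s) := by
  induction k, hk using Nat.le_induction with
  | base =>
    refine ⟨fun n => if n ∈ Finset.Ioc N (2 * N) then c n else 0, fun n => ?_, fun s => ?_⟩
    · beta_reduce
      split_ifs with h
      · have h0 : n ≠ 0 := by
          have := (Finset.mem_Ioc.1 h).1
          omega
        rw [pow_one, pow_one]
        have h1 := hc n h
        have h2 := PW_d_pos h0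
        nlinarith [norm_nonneg (c n)]
      · rw [norm_zero, pow_one, pow_one]
        exact mul_nonneg hB (PW_d_nonneg n)
    · simp only [pow_one]
      refine Finset.sum_congr rfl (fun n hn => ?_)
      rw [if_pos hn]
  | succ k hk ih =>
    obtain ⟨b, hb, hs⟩ := ih
    set I := Finset.Ioc N (2 * N) with hI
    set J := Finset.Ioc (N ^ k) ((2 * N) ^ k) with hJ
    refine ⟨fun m => ∑ p ∈ (I ×ˢ J).filter (fun p => p.1 * p.2 = m), c p.1 * b p.2,
      fun m => ?_, fun s => ?_⟩
    · beta_reduce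
      rcases Nat.eq_zero_or_pos m with h0 | h0
      · have he : (I ×ˢ J).filter (fun p => p.1 * p.2 = m) = ∅ := by
          rw [Finset.filter_eq_empty_iff]
          intro p hp he
          rw [Finset.mem_product, hI, hJ, Finset.mem_Ioc, Finset.mem_Ioc] at hp
          rw [h0, Nat.mul_eq_zero] at he
          rcases he with he | he
          · omega
          · omega
        rw [he, Finset.sum_empty, norm_zero]
        exact mul_nonneg (pow_nonneg hB _) (pow_nonneg (PW_d_nonneg m) _)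
      · have hterm : ∀ p ∈ (I ×ˢ J).filter (fun p => p.1 * p.2 = m),
            ‖c p.1 * b p.2‖ ≤ B * (B ^ k * d m ^ k) := by
          intro p hp
          obtain ⟨h1, h2⟩ := Finset.mem_filter.1 hp
          rw [Finset.mem_product] at h1
          rw [norm_mul]
          have h3 : d p.2 ≤ d m := PW_d_dvd ⟨p.1, by rw [← h2, mul_comm]⟩ (by omega)
          have h4 : ‖b p.2‖ ≤ B ^ k * d m ^ k :=
            (hb p.2).trans (mul_le_mul_of_nonneg_left
              (pow_le_pow_left₀ (PW_d_nonneg _) h3 k) (pow_nonneg hB k))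
          exact mul_le_mul (hc p.1 h1.1) h4 (norm_nonneg _) hB
        have hcard : (((I ×ˢ J).filter (fun p => p.1 * p.2 = m)).card : ℝ) ≤ d m := by
          unfold d
          have : ((I ×ˢ J).filter (fun p => p.1 * p.2 = m)).card ≤ m.divisors.card := by
            refine Finset.card_le_card_of_injOn (fun p => p.1) ?_ ?_
            · intro p hp
              have h2 := (Finset.mem_filter.1 hp).2
              rw [Finset.mem_coe, Nat.mem_divisors]
              exact ⟨⟨p.2, h2.symm⟩, by omega⟩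
            · intro p hp q hq hpq
              have h2 := (Finset.mem_filter.1 hp).2
              have h3 := (Finset.mem_filter.1 hq).2
              have hpq' : p.1 = q.1 := hpq
              have hp1 : 0 < p.1 := by
                rcases Nat.eq_zero_or_pos p.1 with h | h
                · rw [h, zero_mul] at h2; omega
                · exact h
              have h4 : p.1 * p.2 = p.1 * q.2 := by rw [h2, hpq', h3]
              exact Prod.ext hpq' (Nat.eq_of_mul_eq_mul_left hp1 h4)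
          exact_mod_cast this
        have hM : 0 ≤ B * (B ^ k * d m ^ k) :=
          mul_nonneg hB (mul_nonneg (pow_nonneg hB k) (pow_nonneg (PW_d_nonneg m) k))
        calc ‖∑ p ∈ (I ×ˢ J).filter (fun p => p.1 * p.2 = m), c p.1 * b p.2‖
            ≤ ∑ p ∈ (I ×ˢ J).filter (fun p => p.1 * p.2 = m), ‖c p.1 * b p.2‖ :=
              norm_sum_le _ _
          _ ≤ ∑ p ∈ (I ×ˢ J).filter (fun p => p.1 * p.2 = m), B * (B ^ k * d m ^ k) :=
              Finset.sum_le_sum hterm
          _ = (((I ×ˢ J).filter (fun p => p.1 * p.2 = m)).card : ℝ) *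
                (B * (B ^ k * d m ^ k)) := by rw [Finset.sum_const, nsmul_eq_mul]
          _ ≤ d m * (B * (B ^ k * d m ^ k)) := mul_le_mul_of_nonneg_right hcard hM
          _ = B ^ (k + 1) * d m ^ (k + 1) := by ring
    · have hmap : ∀ p ∈ I ×ˢ J, p.1 * p.2 ∈ Finset.Ioc (N ^ (k + 1)) ((2 * N) ^ (k + 1)) := by
        intro p hp
        rw [Finset.mem_product, hI, hJ, Finset.mem_Ioc, Finset.mem_Ioc] at hp
        obtain ⟨⟨a1, a2⟩, a3, a4⟩ := hp
        rw [Finset.mem_Ioc, pow_succ, pow_succ]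
        constructor
        · calc N ^ k * N < p.2 * N := Nat.mul_lt_mul_of_pos_right a3 hN
            _ ≤ p.2 * p.1 := Nat.mul_le_mul_left _ a1.le
            _ = p.1 * p.2 := mul_comm _ _
        · calc p.1 * p.2 = p.2 * p.1 := mul_comm _ _
            _ ≤ (2 * N) ^ k * (2 * N) := Nat.mul_le_mul a4 a2
      rw [pow_succ, hs s, mul_comm, PW_mul I J _ c b hmap s]

theorem choose_pow (δ : ℝ) (hδ : 0 < δ) (hδ1 : δ ≤ 1 / 4) : ∃ T₀ : ℝ, ∀ T : ℝ, T₀ ≤ T →
    ∀ X : ℝ, T ≤ X → X ≤ T ^ (6 : ℕ) →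
    ∀ N : ℕ, T ^ δ / 2 ≤ (N : ℝ) → (N : ℝ) ≤ T ^ (1 / 2 + δ) → ∃ k : ℕ, 1 ≤ k ∧
      (k : ℝ) ≤ 7 / δ ∧ X ^ (1 / 2 : ℝ) ≤ (N : ℝ) ^ k ∧ (N : ℝ) ^ k ≤ X := by
  refine ⟨(128 : ℝ) ^ (1 / δ), fun T hT X hX1 hX2 N hN1 hN2 => ?_⟩
  have h128 : (1 : ℝ) < (128 : ℝ) ^ (1 / δ) := Real.one_lt_rpow (by norm_num) (by positivity)
  have hT1 : 1 < T := lt_of_lt_of_le h128 hT
  have hT0 : 0 < T := by linarith
  have hlogT : 0 < Real.log T := Real.log_pos hT1
  have hl2 : 0 < Real.log 2 := Real.log_pos (by norm_num)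
  have hdl : 7 * Real.log 2 ≤ δ * Real.log T := by
    have h1 : Real.log ((128 : ℝ) ^ (1 / δ)) ≤ Real.log T := Real.log_le_log (by positivity) hT
    rw [Real.log_rpow (by norm_num)] at h1
    have h2 : Real.log 128 = 7 * Real.log 2 := by
      rw [show (128 : ℝ) = 2 ^ 7 by norm_num, Real.log_pow]
      norm_num
    rw [h2] at h1
    calc 7 * Real.log 2 = δ * (1 / δ * (7 * Real.log 2)) := by field_simp
      _ ≤ δ * Real.log T := mul_le_mul_of_nonneg_left h1 hδ.le
  have hTd : 0 < T ^ δ := Real.rpow_pos_of_pos hT0 δ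
  have hN0 : (0 : ℝ) < N := by linarith
  have hlogN : 6 / 7 * (δ * Real.log T) ≤ Real.log N := by
    have h1 : Real.log (T ^ δ / 2) ≤ Real.log N := Real.log_le_log (by positivity) hN1
    rw [Real.log_div hTd.ne' (by norm_num), Real.log_rpow hT0] at h1
    linarith
  have hlogN0 : 0 < Real.log N := lt_of_lt_of_le (by positivity) hlogN
  have hX0 : 0 < X := by linarith
  have hlogX1 : Real.log T ≤ Real.log X := Real.log_le_log hT0 hX1
  have hlogX2 : Real.log X ≤ 6 * Real.log T := by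
    have := Real.log_le_log hX0 hX2
    rw [Real.log_pow] at this
    simpa using this
  have hlogN2 : Real.log N ≤ Real.log T := by
    have h1 := Real.log_le_log hN0 hN2
    rw [Real.log_rpow hT0] at h1
    nlinarith
  set k := ⌊Real.log X / Real.log N⌋₊ with hk
  have hq : 1 ≤ Real.log X / Real.log N := by
    rw [le_div_iff₀ hlogN0]
    linarith
  have hk1 : 1 ≤ k := by
    rw [hk]
    exact (Nat.one_le_floor_iff _).2 hq
  have hk2 : (k : ℝ) ≤ Real.log X / Real.log N := Nat.floor_le (by positivity)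
  have hk3 : Real.log X / Real.log N < (k : ℝ) + 1 := Nat.lt_floor_add_one _
  have hk2' : (k : ℝ) * Real.log N ≤ Real.log X := by rwa [le_div_iff₀ hlogN0] at hk2
  have hk3' : Real.log X < ((k : ℝ) + 1) * Real.log N := by rwa [div_lt_iff₀ hlogN0] at hk3
  have hk1' : (1 : ℝ) ≤ k := by exact_mod_cast hk1
  have hlogNk : Real.log ((N : ℝ) ^ k) = k * Real.log N := by rw [Real.log_pow]
  refine ⟨k, hk1, ?_, ?_, ?_⟩
  · rw [le_div_iff₀ hδ]
    have h1 : (k : ℝ) * (6 / 7 * (δ * Real.log T)) ≤ 6 * Real.log T :=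
      ((mul_le_mul_of_nonneg_left hlogN (by linarith)).trans hk2').trans hlogX2
    by_contra hcon
    push Not at hcon
    have h2 : 7 * Real.log T < (k : ℝ) * δ * Real.log T := mul_lt_mul_of_pos_right hcon hlogT
    nlinarith
  · rw [← Real.log_le_log_iff (Real.rpow_pos_of_pos hX0 _) (pow_pos hN0 k), hlogNk,
      Real.log_rpow hX0]
    nlinarith
  · rw [← Real.log_le_log_iff (pow_pos hN0 k) hX0, hlogNk]
    exact hk2'

end Pool.Agent.helper78.ED
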