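import Pool.Agent.helper78.ED.Defs
import Pool.Agent.helper72.DM.ZZ
import Pool.Agent.helper23.WD.ZN

/-!
# Project ED (MP_4467b5_nt), module LC: local and global number of zeros
-/

set_option autoImplicit false

open Complex MeasureTheory

namespace Pool.Agent.helper78.ED

open Pool.Agent.helper84.DM

theorem LC_log {T t : ℝ} (hT : 2 ≤ T) (h0 : 0 ≤ t) (ht : t ≤ 3 * T) :
    Real.log (t + 3) ≤ 4 * Real.log T := by
  have h1 : t + 3 ≤ T ^ 4 := by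
    have h2 : (4 : ℝ) ≤ T ^ 2 := by nlinarith
    have h3 : T ^ 4 = T ^ 2 * T ^ 2 := by ring
    have h4 : 4 * T ^ 2 ≤ T ^ 4 := by rw [h3]; nlinarith
    nlinarith
  calc Real.log (t + 3) ≤ Real.log (T ^ 4) := Real.log_le_log (by linarith) h1
    _ = 4 * Real.log T := by rw [Real.log_pow]; norm_num

theorem LC_mult_one {ρ : ℂ} (h : riemannZeta ρ = 0) : (1 : ℝ) ≤ mult ρ := by
  have := Pool.Agent.helper6.LD.order_pos h
  unfold mult
  exact_mod_cast this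

theorem local_count : ∃ C : ℝ, 0 < C ∧ ∀ T : ℝ, 2 ≤ T → ∀ Z : Finset ℂ,
    (∀ ρ ∈ Z, riemannZeta ρ = 0 ∧ 1 / 2 ≤ ρ.re) → ∀ t : ℝ, 1 ≤ t → t ≤ 3 * T →
      (loc Z t : ℝ) ≤ C * Real.log T := by
  classical
  obtain ⟨C, hC, hw⟩ := Pool.Agent.helper33.WD.zeros_window
  refine ⟨4 * C, by positivity, fun T hT Z hZ t ht1 ht2 => ?_⟩
  set S := Z.filter (fun z => t ≤ z.im ∧ z.im ≤ t + 1) with hS
  have h1 : (loc Z t : ℝ) = (S.card : ℝ) := by
    unfold loc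
    rw [hS]
  have h2 : (S.card : ℝ) ≤ ∑ ρ ∈ S, (analyticOrderNatAt riemannZeta ρ : ℝ) := by
    rw [Finset.card_eq_sum_ones, Nat.cast_sum]
    refine Finset.sum_le_sum (fun ρ hρ => ?_)
    have := LC_mult_one (hZ ρ (Finset.mem_filter.1 hρ).1).1
    unfold mult at this
    simpa using this
  have h3 := hw t S (by linarith) (fun ρ hρ => by
    obtain ⟨a1, a2⟩ := Finset.mem_filter.1 hρ
    exact ⟨(hZ ρ a1).1, (hZ ρ a1).2, a2.1, a2.2⟩)
  have h4 := LC_log hT (by linarith : (0 : ℝ) ≤ t) ht2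
  calc (loc Z t : ℝ) = (S.card : ℝ) := h1
    _ ≤ C * Real.log (t + 3) := h2.trans h3
    _ ≤ C * (4 * Real.log T) := mul_le_mul_of_nonneg_left h4 hC.le
    _ = 4 * C * Real.log T := by ring

theorem global_count : ∃ C : ℝ, 0 < C ∧ ∀ T : ℝ, 2 ≤ T → ∀ Z : Finset ℂ,
    Zer (1 / 2) T Z → (Z.card : ℝ) ≤ C * T * Real.log T := by
  classical
  obtain ⟨C, hC, hl⟩ := local_count
  refine ⟨2 * C, by positivity, fun T hT Z hZ => ?_⟩
  have hlogT : 0 ≤ Real.log T := Real.log_nonneg (by linarith)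
  have hfl : ((⌊T⌋₊ : ℕ) : ℝ) ≤ T := Nat.floor_le (by linarith)
  have hsub : Z ⊆ (Finset.range (⌊T⌋₊ + 1)).biUnion
      (fun k => Z.filter (fun z => T + (k : ℝ) ≤ z.im ∧ z.im ≤ T + (k : ℝ) + 1)) := by
    intro ρ hρ
    obtain ⟨-, -, h1, h2⟩ := hZ ρ hρ
    rw [Finset.mem_biUnion]
    refine ⟨⌊ρ.im - T⌋₊, ?_, ?_⟩
    · rw [Finset.mem_range, Nat.lt_succ_iff]
      exact Nat.floor_le_floor (by linarith)
    · rw [Finset.mem_filter]
      have h3 := Nat.floor_le (by linarith : (0 : ℝ) ≤ ρ.im - T)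
      have h4 := Nat.lt_floor_add_one (ρ.im - T)
      exact ⟨hρ, by linarith, by linarith⟩
  have h1 : (Z.card : ℝ) ≤ ∑ k ∈ Finset.range (⌊T⌋₊ + 1), C * Real.log T := by
    have h2 : Z.card ≤ ∑ k ∈ Finset.range (⌊T⌋₊ + 1),
        (Z.filter (fun z => T + (k : ℝ) ≤ z.im ∧ z.im ≤ T + (k : ℝ) + 1)).card :=
      (Finset.card_le_card hsub).trans Finset.card_biUnion_le
    have h3 : (Z.card : ℝ) ≤ ∑ k ∈ Finset.range (⌊T⌋₊ + 1),
        ((Z.filter (fun z => T + (k : ℝ) ≤ z.im ∧ z.im ≤ T + (k : ℝ) + 1)).card : ℝ) := by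
      exact_mod_cast h2
    refine h3.trans (Finset.sum_le_sum (fun k hk => ?_))
    rw [Finset.mem_range, Nat.lt_succ_iff] at hk
    have hk2 : (k : ℝ) ≤ T := le_trans (by exact_mod_cast hk) hfl
    have hk0 : (0 : ℝ) ≤ k := Nat.cast_nonneg k
    have h4 := hl T hT Z (fun ρ hρ => ⟨(hZ ρ hρ).1, (hZ ρ hρ).2.1⟩) (T + k) (by linarith)
      (by linarith)
    unfold loc at h4
    refine le_trans (le_of_eq ?_) h4
    congr 2
  rw [Finset.sum_const, Finset.card_range, nsmul_eq_mul] at h1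
  have h5 : ((⌊T⌋₊ + 1 : ℕ) : ℝ) ≤ 2 * T := by
    push_cast
    linarith
  calc (Z.card : ℝ) ≤ ((⌊T⌋₊ + 1 : ℕ) : ℝ) * (C * Real.log T) := h1
    _ ≤ 2 * T * (C * Real.log T) := mul_le_mul_of_nonneg_right h5 (by positivity)
    _ = 2 * C * T * Real.log T := by ring

theorem mult_le : ∃ C : ℝ, 0 < C ∧ ∀ T : ℝ, 2 ≤ T → ∀ ρ : ℂ, riemannZeta ρ = 0 → 0 < ρ.im →
    ρ.im ≤ T → (mult ρ : ℝ) ≤ C * Real.log T := by
  classical
  obtain ⟨C, hC, hw⟩ := Pool.Agent.helper33.WD.zeros_window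
  refine ⟨4 * C, by positivity, fun T hT ρ hρ h0 h1 => ?_⟩
  have key : ∀ σ : ℂ, riemannZeta σ = 0 → 1 / 2 ≤ σ.re → σ.im = ρ.im →
      (mult σ : ℝ) ≤ 4 * C * Real.log T := by
    intro σ hσ hre him
    have h3 := hw ρ.im {σ} h0.le (fun τ hτ => by
      rw [Finset.mem_singleton] at hτ
      subst hτ
      exact ⟨hσ, hre, by rw [him], by rw [him]; linarith⟩)
    rw [Finset.sum_singleton] at h3
    have h4 := LC_log hT h0.le (by linarith : ρ.im ≤ 3 * T)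
    calc (mult σ : ℝ) ≤ C * Real.log (ρ.im + 3) := h3
      _ ≤ C * (4 * Real.log T) := mul_le_mul_of_nonneg_left h4 hC.le
      _ = 4 * C * Real.log T := by ring
  rcases le_or_gt (1 / 2) ρ.re with hre | hre
  · exact key ρ hρ hre rfl
  · obtain ⟨h2, h3⟩ := mult_symm hρ h0.ne'
    have h4 := key (1 - (starRingEnd ℂ) ρ) h2 (by simp; linarith) (by simp)
    rw [h3] at h4
    exact h4

end Pool.Agent.helper78.ED
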